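import Pool.Agent.H543R3.PC.Final

/-!
# The Borel complexity of: there is a complete disjoint `coNP` pair
-/

set_option autoImplicit false

namespace Pool.Agent.Results.MP_46935e_lc.BorelComplexity

open Pool.Agent.H628R3.RO

/-- The set of oracles relative to which there is a complete disjoint `coNP` pair is
`Σ⁰₄`-complete. -/
theorem result : H556R2.Sigma04Complete {A : Oracle | ∃ K₀ K₁ : Set (List Bool),
    IsPair (IsCoNP A) K₀ K₁ ∧
      ∀ L₀ L₁, IsPair (IsCoNP A) L₀ L₁ → RedPair A L₀ L₁ K₀ K₁} :=
  Pool.Agent.H543R3.PC.dconp_complete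

end Pool.Agent.Results.MP_46935e_lc.BorelComplexity
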